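import Pool.Agent.H51.MFL.S

/-!
# Board mfl, row CT3: substitution with denominators
-/

set_option autoImplicit false

open Module MvPolynomial

namespace Pool.MFL

section

variable {S B ι : Type} [CommRing S] [CommRing B] [Fintype ι] (θ : S →+* B) (δ : B) (Y : ι → B)

/-- The homogenised value. -/
noncomputable def ct3H (m : ℕ) (G : MvPolynomial ι S) : B :=
  ∑ α ∈ G.support, θ (coeff α G) * δ ^ (m - α.degree) * ∏ i, Y i ^ α i

theorem ct3_sub (m : ℕ) (G : MvPolynomial ι S) (s : Finset (ι →₀ ℕ)) (h : G.support ⊆ s) :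
    ct3H θ δ Y m G = ∑ α ∈ s, θ (coeff α G) * δ ^ (m - α.degree) * ∏ i, Y i ^ α i := by
  rw [ct3H]
  refine Finset.sum_subset h fun α _ hα => ?_
  rw [notMem_support_iff.1 hα, map_zero, zero_mul, zero_mul]

theorem ct3_add (m : ℕ) (G G' : MvPolynomial ι S) :
    ct3H θ δ Y m (G + G') = ct3H θ δ Y m G + ct3H θ δ Y m G' := by
  classical
  rw [ct3_sub θ δ Y m (G + G') (G.support ∪ G'.support) support_add,
    ct3_sub θ δ Y m G (G.support ∪ G'.support) Finset.subset_union_left,
    ct3_sub θ δ Y m G' (G.support ∪ G'.support) Finset.subset_union_right,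
    ← Finset.sum_add_distrib]
  refine Finset.sum_congr rfl fun α _ => ?_
  rw [coeff_add, map_add]
  ring

theorem ct3_zero (m : ℕ) : ct3H θ δ Y m (0 : MvPolynomial ι S) = 0 := by
  simp [ct3H]

theorem ct3_sum (m : ℕ) {A : Type} (s : Finset A) (f : A → MvPolynomial ι S) :
    ct3H θ δ Y m (∑ a ∈ s, f a) = ∑ a ∈ s, ct3H θ δ Y m (f a) := by
  classical
  induction s using Finset.induction_on with
  | empty => rw [Finset.sum_empty, Finset.sum_empty, ct3_zero]
  | insert a s ha ih => rw [Finset.sum_insert ha, Finset.sum_insert ha, ct3_add, ih]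

theorem ct3_C (m : ℕ) (s : S) (G : MvPolynomial ι S) :
    ct3H θ δ Y m (C s * G) = θ s * ct3H θ δ Y m G := by
  classical
  have hs : (C s * G).support ⊆ G.support := by
    intro α hα
    rw [MvPolynomial.mem_support_iff, coeff_C_mul] at hα
    rw [MvPolynomial.mem_support_iff]
    intro h
    exact hα (by rw [h, mul_zero])
  rw [ct3_sub θ δ Y m (C s * G) G.support hs, ct3H, Finset.mul_sum]
  refine Finset.sum_congr rfl fun α _ => ?_
  rw [coeff_C_mul, map_mul]
  ring

theorem ct3_mono (m : ℕ) (α : ι →₀ ℕ) (s : S) :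
    ct3H θ δ Y m (monomial α s) = θ s * δ ^ (m - α.degree) * ∏ i, Y i ^ α i := by
  classical
  rw [ct3_sub θ δ Y m (monomial α s) {α} support_monomial_subset, Finset.sum_singleton,
    coeff_monomial, if_pos rfl]

theorem ct3_X (m : ℕ) (i : ι) (G : MvPolynomial ι S) :
    ct3H θ δ Y (m + 1) (X i * G) = Y i * ct3H θ δ Y m G := by
  classical
  have hG := G.as_sum
  rw [hG, Finset.mul_sum, ct3_sum, ct3_sum, Finset.mul_sum]
  refine Finset.sum_congr rfl fun α _ => ?_
  have h0 : X i * monomial α (coeff α G) = monomial (α + Finsupp.single i 1) (coeff α G) := by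
    rw [mul_comm, X, monomial_mul, mul_one]
  rw [h0, ct3_mono, ct3_mono]
  have h1 : (α + Finsupp.single i 1).degree = α.degree + 1 := by
    rw [map_add, Finsupp.degree_single]
  have h2 : ∏ j, Y j ^ ((α + Finsupp.single i 1 : ι →₀ ℕ) j) = Y i * ∏ j, Y j ^ α j := by
    simp only [Finsupp.add_apply, pow_add, Finset.prod_mul_distrib]
    rw [mul_comm]
    congr 1
    rw [Finset.prod_eq_single i]
    · rw [Finsupp.single_eq_same, pow_one]
    · intro j _ hj
      rw [Finsupp.single_eq_of_ne hj, pow_zero]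
    · intro h; exact absurd (Finset.mem_univ i) h
  rw [h1, h2, Nat.add_sub_add_right]
  ring

theorem ct3_lift (m : ℕ) (G : MvPolynomial ι S) (h : G.totalDegree ≤ m) :
    ct3H θ δ Y (m + 1) G = δ * ct3H θ δ Y m G := by
  rw [ct3H, ct3H, Finset.mul_sum]
  refine Finset.sum_congr rfl fun α hα => ?_
  have h1 : α.degree ≤ m := (by
    have := le_totalDegree hα
    rw [Finsupp.degree]
    exact this.trans h)
  rw [Nat.succ_sub h1, pow_succ]
  ring

theorem ct3_lift' (m k : ℕ) (G : MvPolynomial ι S) (h : G.totalDegree ≤ m) :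
    ct3H θ δ Y (m + k) G = δ ^ k * ct3H θ δ Y m G := by
  induction k with
  | zero => rw [add_zero, pow_zero, one_mul]
  | succ k ih =>
    rw [← add_assoc, ct3_lift θ δ Y (m + k) G (by omega), ih, pow_succ]
    ring

end

theorem t_ct3 : CT3Stmt := by
  classical
  intro R₀ S B ι J _ _ _ _ ρ θ Δ N b q Y hq F K g hF hg
  let L : J → MvPolynomial ι S := fun j => C (b j) + ∑ i, C (N i j) * X i
  have hL : ∀ j, (L j).totalDegree ≤ 1 := by
    intro j
    refine (totalDegree_add _ _).trans (max_le ?_ ?_)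
    · rw [totalDegree_C]; exact Nat.zero_le _
    · refine (totalDegree_finsetSum _ _).trans (Finset.sup_le fun i _ => ?_)
      refine (totalDegree_mul _ _).trans ?_
      rw [totalDegree_C, zero_add]
      rw [X]
      refine (totalDegree_monomial_le _ _).trans ?_
      rw [Finsupp.sum_single_index rfl]
      exact le_rfl
  have key : ∀ s : Multiset J, ((s.map L).prod).totalDegree ≤ s.card ∧
      ct3H θ (θ Δ) Y s.card (s.map L).prod = θ Δ ^ s.card * (s.map q).prod := by
    intro s
    induction s using Multiset.induction_on with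
    | empty =>
      refine ⟨by simp, ?_⟩
      rw [Multiset.map_zero, Multiset.prod_zero, Multiset.map_zero, Multiset.prod_zero,
        Multiset.card_zero, ← C_1, ← monomial_zero', ct3_mono]
      simp
    | cons j s ih =>
      rw [Multiset.map_cons, Multiset.prod_cons, Multiset.map_cons, Multiset.prod_cons,
        Multiset.card_cons]
      refine ⟨(totalDegree_mul _ _).trans (by have := hL j; omega), ?_⟩
      change ct3H θ (θ Δ) Y (s.card + 1) ((C (b j) + ∑ i, C (N i j) * X i) * _) = _
      rw [add_mul, Finset.sum_mul, ct3_add, ct3_C, ct3_lift _ _ _ _ _ ih.1, ct3_sum]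
      have h1 : ∀ i ∈ (Finset.univ : Finset ι), ct3H θ (θ Δ) Y (s.card + 1)
          (C (N i j) * X i * (s.map L).prod) =
          θ (N i j) * Y i * ct3H θ (θ Δ) Y s.card (s.map L).prod := by
        intro i _
        rw [mul_assoc, ct3_C, ct3_X, ← mul_assoc]
      rw [Finset.sum_congr rfl h1, ← Finset.sum_mul, ih.2, pow_succ]
      have h2 := hq j
      linear_combination (-(θ Δ ^ s.card * (s.map q).prod)) * h2
  have hmon : ∀ (β : J →₀ ℕ) (r : R₀), β.degree ≤ K →
      θ Δ ^ K * eval₂ (θ.comp ρ) q (monomial β r) =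
        ct3H θ (θ Δ) Y K (eval₂ ((MvPolynomial.C).comp ρ) L (monomial β r)) := by
    intro β r hβ
    have hp : ∀ {A : Type} [CommRing A] (f : J → A), (β.prod fun j e => f j ^ e) =
        ((Finsupp.toMultiset β).map f).prod := by
      intro A _ f
      rw [Finset.prod_multiset_map_count, Finsupp.toFinset_toMultiset, Finsupp.prod]
      refine Finset.prod_congr rfl fun j _ => ?_
      rw [Finsupp.count_toMultiset]
    have hc : (Finsupp.toMultiset β).card = β.degree := by
      rw [Finsupp.card_toMultiset]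
      rfl
    obtain ⟨k, rfl⟩ := Nat.exists_eq_add_of_le hβ
    rw [eval₂_monomial, eval₂_monomial, hp, hp]
    have h3 := key (Finsupp.toMultiset β)
    rw [hc] at h3
    change _ = ct3H θ (θ Δ) Y (β.degree + k) (C (ρ r) * _)
    rw [ct3_C, ct3_lift' _ _ _ _ _ _ h3.1, h3.2, pow_add]
    change _ * (θ (ρ r) * _) = _
    ring
  have hsum : ∀ {A : Type} [CommRing A] (f : R₀ →+* A) (u : J → A),
      eval₂ f u F = ∑ β ∈ F.support, eval₂ f u (monomial β (coeff β F)) := by
    intro A _ f u
    conv_lhs => rw [F.as_sum, eval₂_sum]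
  have hfin : θ Δ ^ K * eval₂ (θ.comp ρ) q F = ct3H θ (θ Δ) Y K g := by
    rw [hg, hsum (θ.comp ρ) q, hsum ((MvPolynomial.C).comp ρ), Finset.mul_sum, ct3_sum]
    refine Finset.sum_congr rfl fun β hβ => hmon β _ ?_
    have := le_totalDegree hβ
    rw [Finsupp.degree]
    exact this.trans hF
  exact hfin

end Pool.MFL
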