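import Pool.Agent.H51.MFL.S

/-!
# Board mfl, row NSP: chains at a general point are values of families of chains
-/

set_option autoImplicit false

open Module MvPolynomial

namespace Pool.MFL

open Pool.MFQ Pool.MFM

open scoped Polynomial

section Lin

variable {κ : Type} [Fintype κ]

theorem nsp_dA_add {R : Type} [CommRing R] (c : κ → κ → κ → R) (z : κ) (P Q : MvPolynomial κ R) :
    dA c z (P + Q) = dA c z P + dA c z Q := by
  simp only [dA, map_add, mul_add, Finset.sum_add_distrib]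

theorem nsp_dA_mul {R : Type} [CommRing R] (c : κ → κ → κ → R) (z : κ) (r : R)
    (P : MvPolynomial κ R) : dA c z (C r * P) = C r * dA c z P := by
  simp only [dA, Derivation.leibniz, pderiv_C, smul_eq_mul, mul_zero, add_zero]
  rw [Finset.mul_sum]
  refine Finset.sum_congr rfl fun j _ => ?_
  ring

theorem nsp_dF_add {R : Type} [CommRing R] (α : κ → κ → R) (z : κ) (P Q : MvPolynomial κ R) :
    dF α z (P + Q) = dF α z P + dF α z Q := by
  simp only [dF, map_add, mul_add, Finset.sum_add_distrib]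

theorem nsp_dF_mul {R : Type} [CommRing R] (α : κ → κ → R) (z : κ) (r : R)
    (P : MvPolynomial κ R) : dF α z (C r * P) = C r * dF α z P := by
  simp only [dF, Derivation.leibniz, pderiv_C, smul_eq_mul, mul_zero, add_zero]
  rw [Finset.mul_sum]
  refine Finset.sum_congr rfl fun j _ => ?_
  ring

theorem nsp_dF_comb {R : Type} [CommRing R] (α β : κ → κ → R) (r : R) (z : κ)
    (P : MvPolynomial κ R) : dF (fun i j => α i j + r * β i j) z P =
      dF α z P + C r * dF β z P := by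
  simp only [dF]
  rw [Finset.mul_sum, ← Finset.sum_add_distrib]
  refine Finset.sum_congr rfl fun j _ => ?_
  rw [map_add, map_mul]
  ring

theorem nsp_aC (c : κ → κ → κ → ℂ) (a b : κ → ℂ) (t : ℂ) :
    aC c (fun z => a z + t * b z) = fun i j => aC c a i j + t * aC c b i j := by
  funext i j
  simp only [aC]
  rw [Finset.mul_sum, ← Finset.sum_add_distrib]
  refine Finset.sum_congr rfl fun k _ => ?_
  ring

/-- The operator `dA` as a linear map. -/
noncomputable def nspA (c : κ → κ → κ → ℂ) (z : κ) :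
    MvPolynomial κ ℂ →ₗ[ℂ] MvPolynomial κ ℂ where
  toFun := dA c z
  map_add' := nsp_dA_add c z
  map_smul' r P := by
    rw [smul_eq_C_mul, nsp_dA_mul, ← smul_eq_C_mul]
    rfl

/-- The operator `dF` as a linear map. -/
noncomputable def nspF (α : κ → κ → ℂ) (z : κ) :
    MvPolynomial κ ℂ →ₗ[ℂ] MvPolynomial κ ℂ where
  toFun := dF α z
  map_add' := nsp_dF_add α z
  map_smul' r P := by
    rw [smul_eq_C_mul, nsp_dF_mul, ← smul_eq_C_mul]
    rfl

theorem nsp_dA_map (c : κ → κ → κ → ℂ) (z : κ) (P : MvPolynomial κ ℂ) :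
    dA (cX c) z (map Polynomial.C P) = map Polynomial.C (dA c z P) := by
  simp only [dA, cX, map_sum, map_mul, map_C, map_X, pderiv_map]

theorem nsp_dF_map (α : κ → κ → ℂ) (z : κ) (P : MvPolynomial κ ℂ) :
    dF (fun i j => Polynomial.C (α i j)) z (map Polynomial.C P) =
      map Polynomial.C (dF α z P) := by
  simp only [dF, map_sum, map_mul, map_C, pderiv_map]

end Lin

section Fam

variable {σ τ : Type} [Fintype τ]

/-- `iLR` as a linear map. -/
noncomputable def nspI : LmR ℂ σ τ →ₗ[ℂ] MvPolynomial (σ ⊕ τ) ℂ where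
  toFun := iLR
  map_add' P Q := by
    simp only [iLR, Prod.fst_add, Prod.snd_add, Pi.add_apply, map_add, add_mul,
      Finset.sum_add_distrib]
    ring
  map_smul' r P := by
    simp only [iLR, Prod.smul_fst, Prod.smul_snd, Pi.smul_apply, map_smul, smul_add,
      Finset.smul_sum, smul_mul_assoc, RingHom.id_apply]

/-- Constant families. -/
noncomputable def nspU (P : LmR ℂ σ τ) : LmR (ℂ[X]) σ τ :=
  (map Polynomial.C P.1, fun i => map Polynomial.C (P.2 i))

/-- Families given by their coefficients. -/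
noncomputable def nspS (n : ℕ) (P : ℕ → LmR ℂ σ τ) : LmR (ℂ[X]) σ τ :=
  (∑ i ∈ Finset.range n, C (Polynomial.X ^ i) * map Polynomial.C (P i).1,
   fun s => ∑ i ∈ Finset.range n, C (Polynomial.X ^ i) * map Polynomial.C ((P i).2 s))

theorem nsp_iLR (n : ℕ) (P : ℕ → LmR ℂ σ τ) : iLR (nspS n P) =
    ∑ i ∈ Finset.range n, C (Polynomial.X ^ i) * map Polynomial.C (iLR (P i)) := by
  simp only [iLR, nspS, map_sum, map_mul, rename_C, map_add, map_rename, map_X, mul_add,
    Finset.sum_add_distrib]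
  congr 1
  simp only [Finset.sum_mul, Finset.mul_sum]
  rw [Finset.sum_comm]
  refine Finset.sum_congr rfl fun i _ => ?_
  refine Finset.sum_congr rfl fun j _ => ?_
  rw [mul_assoc]

theorem nsp_hom (n k : ℕ) (P : ℕ → LmR ℂ σ τ) (h : ∀ i, HomR k (P i)) :
    HomR k (nspS n P) := by
  have h0 : ∀ (m i : ℕ) (f : MvPolynomial σ ℂ), f.IsHomogeneous m →
      (C (Polynomial.X ^ i) * map Polynomial.C f : MvPolynomial σ (ℂ[X])).IsHomogeneous m := by
    intro m i f hf
    have := (isHomogeneous_C σ (Polynomial.X ^ i : ℂ[X])).mul (hf.map Polynomial.C)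
    rwa [zero_add] at this
  refine ⟨?_, fun s => ?_⟩
  · exact IsHomogeneous.sum _ _ _ fun i _ => h0 _ _ _ (h i).1
  · exact IsHomogeneous.sum _ _ _ fun i _ => h0 _ _ _ ((h i).2 s)

theorem nsp_vl (n : ℕ) (t : ℂ) (P : ℕ → LmR ℂ σ τ) :
    vl t (nspS n P) = ∑ i ∈ Finset.range n, t ^ i • P i := by
  have h0 : ∀ (i : ℕ) (f : MvPolynomial σ ℂ), map (Polynomial.evalRingHom t)
      (C (Polynomial.X ^ i) * map Polynomial.C f : MvPolynomial σ (ℂ[X])) = t ^ i • f := by
    intro i f
    rw [map_mul, map_C, map_map]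
    have : (Polynomial.evalRingHom t).comp Polynomial.C = RingHom.id ℂ := by
      ext <;> simp
    rw [this, map_id, smul_eq_C_mul]
    simp
  apply Prod.ext
  · change map (Polynomial.evalRingHom t) (∑ i ∈ Finset.range n, C (Polynomial.X ^ i) *
      map Polynomial.C (P i).1) = _
    rw [map_sum, Prod.fst_sum]
    exact Finset.sum_congr rfl fun i _ => h0 i _
  · funext s
    change map (Polynomial.evalRingHom t) (∑ i ∈ Finset.range n, C (Polynomial.X ^ i) *
      map Polynomial.C ((P i).2 s)) = _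
    rw [map_sum, Prod.snd_sum, Finset.sum_apply]
    exact Finset.sum_congr rfl fun i _ => h0 i _

/-- Homogeneous elements. -/
noncomputable def nspH (σ τ : Type) (n : ℕ) : Submodule ℂ (LmR ℂ σ τ) :=
  (homogeneousSubmodule σ ℂ n).prod
    (Submodule.pi Set.univ fun _ => homogeneousSubmodule σ ℂ (n - 1))

theorem nsp_mem (n : ℕ) (P : LmR ℂ σ τ) : P ∈ nspH σ τ n ↔ HomR n P := by
  rw [nspH, Submodule.mem_prod, Submodule.mem_pi]
  constructor
  · intro h
    exact ⟨h.1, fun i => h.2 i (Set.mem_univ i)⟩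
  · intro h
    exact ⟨h.1, fun i _ => h.2 i⟩

theorem nsp_fin [Fintype σ] (n : ℕ) : FiniteDimensional ℂ (nspH σ τ n) := by
  rw [FiniteDimensional, Module.Finite.iff_fg]
  exact (homogeneousSubmodule_fg σ ℂ n).prod
    (Submodule.fg_pi fun _ => homogeneousSubmodule_fg σ ℂ (n - 1))

/-- The members of a chain. -/
noncomputable def nspP (σ τ : Type) (N n : ℕ) :
    ((i : Fin N) → nspH σ τ (i.1 + 1)) →ₗ[ℂ] LmR ℂ σ τ :=
  if h : 1 ≤ n ∧ n ≤ N then
    (nspH σ τ (n - 1 + 1)).subtype ∘ₗ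
      LinearMap.proj (R := ℂ) (φ := fun i : Fin N => nspH σ τ (i.1 + 1)) ⟨n - 1, by omega⟩
  else 0

theorem nsp_P0 (N : ℕ) (x : (i : Fin N) → nspH σ τ (i.1 + 1)) : nspP σ τ N 0 x = 0 := by
  rw [nspP, dif_neg (by omega), LinearMap.zero_apply]

theorem nsp_Pn (N n : ℕ) (h : 1 ≤ n ∧ n ≤ N) (x : (i : Fin N) → nspH σ τ (i.1 + 1)) :
    nspP σ τ N n x = (x ⟨n - 1, by omega⟩ : LmR ℂ σ τ) := by
  rw [nspP, dif_pos h]
  rfl

end Fam

theorem t_nsp (h1 : SPFStmt) : NSPStmt := by
  intro σ τ _ _ c a b N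
  rcases Nat.eq_zero_or_pos N with hN | hN
  · subst hN
    refine ⟨∅, fun t _ Q _ _ => ⟨fun _ => 0, fun n h h' => absurd h' (by omega), ?_, fun n h h' =>
      absurd h' (by omega)⟩⟩
    refine ⟨fun z => ?_, fun i _ h' => absurd h' (by omega)⟩
    simp [iLR, dF]
  haveI : ∀ n, FiniteDimensional ℂ (nspH σ τ n) := fun n => nsp_fin n
  let E := (i : Fin N) → nspH σ τ (i.1 + 1)
  let M₀ : E →ₗ[ℂ] ((σ ⊕ τ) × Fin N → MvPolynomial (σ ⊕ τ) ℂ) := LinearMap.pi fun q =>
    nspA c q.1 ∘ₗ nspI ∘ₗ nspP σ τ N q.2.1 + nspF (aC c a) q.1 ∘ₗ nspI ∘ₗ nspP σ τ N (q.2.1 + 1)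
  let M₁ : E →ₗ[ℂ] ((σ ⊕ τ) × Fin N → MvPolynomial (σ ⊕ τ) ℂ) := LinearMap.pi fun q =>
    nspF (aC c b) q.1 ∘ₗ nspI ∘ₗ nspP σ τ N (q.2.1 + 1)
  have hM₀ : ∀ x z i, M₀ x (z, i) = dA c z (iLR (nspP σ τ N i.1 x)) +
      dF (aC c a) z (iLR (nspP σ τ N (i.1 + 1) x)) := fun x z i => rfl
  have hM₁ : ∀ x z i, M₁ x (z, i) = dF (aC c b) z (iLR (nspP σ τ N (i.1 + 1) x)) :=
    fun x z i => rfl
  obtain ⟨Bad, hBad⟩ := h1 E _ M₀ M₁
  refine ⟨Bad, fun t ht Q hQ hch => ?_⟩
  let x : E := fun i => ⟨Q (i.1 + 1), (nsp_mem _ _).2 (hQ _ (by omega) (by have := i.2; omega))⟩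
  have hx : ∀ n, 1 ≤ n → n ≤ N → nspP σ τ N n x = Q n := by
    intro n h2 h3
    rw [nsp_Pn N n ⟨h2, h3⟩]
    change Q (n - 1 + 1) = Q n
    rw [Nat.sub_add_cancel h2]
  have hMx : M₀ x + t • M₁ x = 0 := by
    funext q
    obtain ⟨z, i⟩ := q
    rw [Pi.add_apply, Pi.smul_apply, hM₀, hM₁, hx (i.1 + 1) (by omega) (by have := i.2; omega),
      smul_eq_C_mul, add_assoc, ← nsp_dF_comb, ← nsp_aC, Pi.zero_apply]
    rcases Nat.eq_zero_or_pos i.1 with h | h
    · have h4 := hch.one z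
      have h5 : dA c z (iLR (nspP σ τ N i.1 x)) = 0 := by
        rw [h, nsp_P0]
        simp [iLR, dA]
      rw [h5, zero_add, h]
      exact h4
    · rw [hx i.1 h (by have := i.2; omega)]
      exact hch.step i.1 h i.2 z
  obtain ⟨n, y, hy0, hy1, hy2, hy3⟩ := hBad t ht x hMx
  refine ⟨fun k => nspS n fun i => nspP σ τ N k (y i), fun k hk hk' => ?_, ?_, fun k hk hk' => ?_⟩
  · apply nsp_hom
    intro i
    rw [nsp_Pn N k ⟨hk, hk'⟩]
    have := (nsp_mem _ _).1 (y i ⟨k - 1, by omega⟩).2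
    have h6 : k - 1 + 1 = k := Nat.sub_add_cancel hk
    simpa only [h6] using this
  · have key : ∀ (k : ℕ) (hk : k < N) (z : σ ⊕ τ),
        dA (cX c) z (iLR (nspS n fun i => nspP σ τ N k (y i))) +
          dF (aX c a b) z (iLR (nspS n fun i => nspP σ τ N (k + 1) (y i))) = 0 := by
      intro k hk z
      have e0 : ∀ (m : ℕ) (f : ℕ → MvPolynomial (σ ⊕ τ) (ℂ[X])), dA (cX c) z
          (∑ i ∈ Finset.range m, f i) = ∑ i ∈ Finset.range m, dA (cX c) z (f i) := by
        intro m f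
        induction m with
        | zero => simp [dA]
        | succ m ih => rw [Finset.sum_range_succ, Finset.sum_range_succ, nsp_dA_add, ih]
      have e1 : ∀ (m : ℕ) (f : ℕ → MvPolynomial (σ ⊕ τ) (ℂ[X])), dF (aX c a b) z
          (∑ i ∈ Finset.range m, f i) = ∑ i ∈ Finset.range m, dF (aX c a b) z (f i) := by
        intro m f
        induction m with
        | zero => simp [dF]
        | succ m ih => rw [Finset.sum_range_succ, Finset.sum_range_succ, nsp_dF_add, ih]
      have e2 : ∀ P : MvPolynomial (σ ⊕ τ) ℂ, dF (aX c a b) z (map Polynomial.C P) =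
          map Polynomial.C (dF (aC c a) z P) +
            C Polynomial.X * map Polynomial.C (dF (aC c b) z P) := by
        intro P
        have h7 : aX c a b = fun i j => (fun i j => Polynomial.C (aC c a i j)) i j +
            Polynomial.X * (fun i j => Polynomial.C (aC c b i j)) i j := rfl
        rw [h7, nsp_dF_comb, nsp_dF_map, nsp_dF_map]
      rw [nsp_iLR, nsp_iLR, e0, e1, ← Finset.sum_add_distrib]
      have e3 : ∀ i, dA (cX c) z (C (Polynomial.X ^ i) *
            map Polynomial.C (iLR (nspP σ τ N k (y i)))) +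
          dF (aX c a b) z (C (Polynomial.X ^ i) *
            map Polynomial.C (iLR (nspP σ τ N (k + 1) (y i)))) =
          C (Polynomial.X ^ i) * map Polynomial.C (M₀ (y i) (z, ⟨k, hk⟩)) +
          C (Polynomial.X ^ (i + 1)) * map Polynomial.C (M₁ (y i) (z, ⟨k, hk⟩)) := by
        intro i
        rw [nsp_dA_mul, nsp_dF_mul, nsp_dA_map, e2, hM₀, hM₁, map_add, pow_succ, map_mul]
        ring
      rw [Finset.sum_congr rfl fun i _ => e3 i, Finset.sum_add_distrib]
      have e4 : ∑ i ∈ Finset.range n, C (Polynomial.X ^ i) *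
            map Polynomial.C (M₀ (y i) (z, ⟨k, hk⟩)) =
          ∑ i ∈ Finset.range (n + 1), C (Polynomial.X ^ i : ℂ[X]) *
            map Polynomial.C (M₀ (y i) (z, ⟨k, hk⟩)) := by
        rw [Finset.sum_range_succ, hy0 n le_rfl, map_zero, Pi.zero_apply, map_zero, mul_zero,
          add_zero]
      rw [e4, Finset.sum_range_succ', hy1, Pi.zero_apply, map_zero, mul_zero, add_zero,
        ← Finset.sum_add_distrib]
      refine Finset.sum_eq_zero fun i _ => ?_
      rw [← mul_add, ← map_add]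
      have h8 := congrFun (hy2 i) (z, ⟨k, hk⟩)
      rw [Pi.add_apply, Pi.zero_apply] at h8
      rw [h8, map_zero, mul_zero]
    refine ⟨fun z => ?_, fun i hi hi' z => key i hi' z⟩
    have h9 := key 0 hN z
    have h10 : dA (cX c) z (iLR (nspS n fun i => nspP σ τ N 0 (y i))) = 0 := by
      rw [nsp_iLR]
      have : ∀ i ∈ Finset.range n, (C (Polynomial.X ^ i) *
          map Polynomial.C (iLR (nspP σ τ N 0 (y i))) : MvPolynomial (σ ⊕ τ) (ℂ[X])) = 0 := by
        intro i _
        rw [nsp_P0]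
        simp [iLR]
      rw [Finset.sum_eq_zero this]
      simp [dA]
    rw [h10, zero_add] at h9
    exact h9
  · rw [nsp_vl]
    have h11 := congrArg (nspP σ τ N k) hy3
    rw [map_sum, hx k hk hk'] at h11
    rw [← h11]
    exact Finset.sum_congr rfl fun i _ => by rw [map_smul]

end Pool.MFL
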