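import Pool.Agent.H51.MFL.S

/-!
# Board mfl, row SAT: limits of values of a saturated module of families
-/

set_option autoImplicit false

open Module Filter Topology

namespace Pool.MFL

open scoped Polynomial in
theorem t_sat : SATStmt := by
  intro n G hsat T v v₀ hcl hlim hval
  obtain ⟨r, ⟨b⟩⟩ := Submodule.nonempty_basis_of_pid (Pi.basisFun ℂ[X] (Fin n)) G
  -- the evaluation matrices
  let E : ℂ → Matrix (Fin n) (Fin r) ℂ := fun t => Matrix.of fun i j =>
    (((b j : G) : Fin n → ℂ[X]) i).eval t
  have hE : ∀ (t : ℂ) (c : Fin r → ℂ) (i : Fin n), (E t).mulVec c i =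
      ∑ j, (((b j : G) : Fin n → ℂ[X]) i).eval t * c j := fun t c i => rfl
  -- injectivity at `0`
  have hinj : Function.Injective (E 0).mulVecLin := by
    rw [injective_iff_map_eq_zero]
    intro c hc
    have hc' : ∀ i, ∑ j, (((b j : G) : Fin n → ℂ[X]) i).eval 0 * c j = 0 := by
      intro i
      have h1 := congrFun hc i
      rw [Matrix.mulVecLin_apply] at h1
      simpa [hE] using h1
    let h : G := ∑ j, (Polynomial.C (c j)) • b j
    have hh : ∀ i, ((h : G) : Fin n → ℂ[X]) i =
        ∑ j, Polynomial.C (c j) * ((b j : G) : Fin n → ℂ[X]) i := by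
      intro i
      simp [h, Finset.sum_apply]
    have hdiv : ∀ i, Polynomial.X ∣ ((h : G) : Fin n → ℂ[X]) i := by
      intro i
      rw [Polynomial.X_dvd_iff, Polynomial.coeff_zero_eq_eval_zero, hh,
        Polynomial.eval_finsetSum]
      refine Eq.trans ?_ (hc' i)
      refine Finset.sum_congr rfl fun j _ => ?_
      rw [Polynomial.eval_mul, Polynomial.eval_C, mul_comm]
    choose k hk using hdiv
    have hkG : k ∈ G := by
      apply hsat
      have : (Polynomial.X : ℂ[X]) • k = ((h : G) : Fin n → ℂ[X]) := by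
        funext i
        rw [Pi.smul_apply, smul_eq_mul, hk i]
      rw [this]
      exact h.2
    have hX : h = (Polynomial.X : ℂ[X]) • (⟨k, hkG⟩ : G) := by
      apply Subtype.ext
      funext i
      change _ = Polynomial.X * k i
      rw [hk i]
    funext j
    have h1 : b.repr h j = Polynomial.C (c j) := by
      simp only [h, map_sum, map_smul, Finsupp.coe_finset_sum, Finset.sum_apply,
        Finsupp.smul_apply, Basis.repr_self, smul_eq_mul]
      rw [Finset.sum_eq_single j]
      · simp
      · intro i _ hij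
        rw [Finsupp.single_eq_of_ne (Ne.symm hij), mul_zero]
      · intro hj; exact absurd (Finset.mem_univ j) hj
    rw [hX, map_smul, Finsupp.smul_apply, smul_eq_mul] at h1
    have h2 := congrArg (Polynomial.eval 0) h1
    rw [Polynomial.eval_mul, Polynomial.eval_X, zero_mul, Polynomial.eval_C] at h2
    simpa using h2.symm
  obtain ⟨A', hA'⟩ := LinearMap.exists_leftInverse_of_injective (E 0).mulVecLin
    (LinearMap.ker_eq_bot.2 hinj)
  let A : Matrix (Fin r) (Fin n) ℂ := LinearMap.toMatrix' A'
  have hA : A * E 0 = 1 := by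
    have h1 : (A * E 0).mulVecLin = LinearMap.id := by
      rw [Matrix.mulVecLin_mul, ← hA']
      congr 1
      exact Matrix.toLin'_toMatrix' A'
    have h2 := congrArg LinearMap.toMatrix' h1
    rw [LinearMap.toMatrix'_id] at h2
    rw [← h2]
    exact (LinearMap.toMatrix'_toLin' (A * E 0)).symm
  have hEc : Continuous E := by
    refine continuous_matrix fun i j => ?_
    exact (((b j : G) : Fin n → ℂ[X]) i).continuous
  let F : ℂ × (Fin n → ℂ) → (Fin n → ℂ) := fun q => (A * E q.1).det • q.2 -
    (E q.1).mulVec ((A * E q.1).adjugate.mulVec (A.mulVec q.2))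
  have hAE : Continuous fun q : ℂ × (Fin n → ℂ) => A * E q.1 :=
    continuous_const.matrix_mul (hEc.comp continuous_fst)
  have hF : Continuous F := by
    refine Continuous.sub ((Continuous.matrix_det hAE).smul continuous_snd) ?_
    exact (hEc.comp continuous_fst).matrix_mulVec
      ((Continuous.matrix_adjugate hAE).matrix_mulVec
        (continuous_const.matrix_mulVec continuous_snd))
  have hne : (𝓝[T \ {0}] (0 : ℂ)).NeBot := mem_closure_iff_nhdsWithin_neBot.1 hcl
  have hid : Tendsto (fun t : ℂ => t) (𝓝[T \ {0}] (0 : ℂ)) (𝓝 0) :=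
    tendsto_id.mono_left nhdsWithin_le_nhds
  have hFl : Tendsto (fun t => F (t, v t)) (𝓝[T \ {0}] (0 : ℂ)) (𝓝 (F (0, v₀))) :=
    (hF.tendsto (0, v₀)).comp (hid.prodMk_nhds hlim)
  have hF0 : ∀ᶠ t in 𝓝[T \ {0}] (0 : ℂ), F (t, v t) = 0 := by
    filter_upwards [self_mem_nhdsWithin] with t ht
    obtain ⟨g, hg, hgv⟩ := hval t ht.1 (fun h => ht.2 h)
    have hrep := b.sum_repr (⟨g, hg⟩ : G)
    let c : Fin r → ℂ := fun j => (b.repr (⟨g, hg⟩ : G) j).eval t
    have hc : v t = (E t).mulVec c := by
      funext i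
      rw [← hgv i, hE]
      have h1 : g i = ∑ j, b.repr (⟨g, hg⟩ : G) j * ((b j : G) : Fin n → ℂ[X]) i := by
        have h2 := congrArg (fun w : G => (w : Fin n → ℂ[X]) i) hrep
        simp only [Submodule.coe_sum, Submodule.coe_smul, Finset.sum_apply, Pi.smul_apply,
          smul_eq_mul] at h2
        exact h2.symm
      rw [h1, Polynomial.eval_finsetSum]
      refine Finset.sum_congr rfl fun j _ => ?_
      rw [Polynomial.eval_mul, mul_comm]
    change (A * E t).det • v t - (E t).mulVec ((A * E t).adjugate.mulVec (A.mulVec (v t))) = 0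
    have h4 : (A * E t).adjugate.mulVec (A.mulVec (v t)) = (A * E t).det • c := by
      rw [hc, Matrix.mulVec_mulVec, Matrix.mulVec_mulVec, Matrix.mul_assoc, Matrix.adjugate_mul,
        Matrix.smul_mulVec, Matrix.one_mulVec]
    rw [h4, hc, Matrix.mulVec_smul, sub_self]
  have hlim0 : F (0, v₀) = 0 :=
    tendsto_nhds_unique hFl ((tendsto_congr' hF0).2 tendsto_const_nhds)
  have hv : v₀ = (E 0).mulVec (A.mulVec v₀) := by
    change (A * E 0).det • v₀ - (E 0).mulVec ((A * E 0).adjugate.mulVec (A.mulVec v₀)) = 0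
      at hlim0
    rw [hA, Matrix.det_one, one_smul, Matrix.adjugate_one, Matrix.one_mulVec,
      sub_eq_zero] at hlim0
    exact hlim0
  refine ⟨((∑ j, Polynomial.C (A.mulVec v₀ j) • b j : G) : Fin n → ℂ[X]), Submodule.coe_mem _,
    fun i => ?_⟩
  have h3 := congrFun hv i
  rw [hE] at h3
  rw [h3, Submodule.coe_sum, Finset.sum_apply, Polynomial.eval_finsetSum]
  refine Finset.sum_congr rfl fun j _ => ?_
  rw [Submodule.coe_smul, Pi.smul_apply, smul_eq_mul, Polynomial.eval_mul, Polynomial.eval_C,
    mul_comm]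

end Pool.MFL
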