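import Pool.Agent.H51.MFL.S

/-!
# Board mfl, row SPF: kernels of a pencil of linear maps
-/

set_option autoImplicit false

open Module

namespace Pool.MFL

open scoped Polynomial

/-- Generalised inverses with polynomial entries. -/
theorem spf_gen {m d : ℕ} (M : Matrix (Fin m) (Fin d) ℂ[X]) :
    ∃ (δ : ℂ[X]) (G : Matrix (Fin d) (Fin m) ℂ[X]), δ ≠ 0 ∧ M * G * M = δ • M := by
  classical
  let K := FractionRing ℂ[X]
  let MK : Matrix (Fin m) (Fin d) K := M.map (algebraMap ℂ[X] K)
  let f := MK.mulVecLin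
  obtain ⟨s, hs⟩ := LinearMap.exists_rightInverse_of_surjective f.rangeRestrict
    (LinearMap.range_rangeRestrict f)
  obtain ⟨p, hp⟩ := LinearMap.exists_leftInverse_of_injective (LinearMap.range f).subtype
    (Submodule.ker_subtype _)
  have hfgf : f ∘ₗ (s ∘ₗ p) ∘ₗ f = f := by
    refine LinearMap.ext fun x => ?_
    change f (s (p (f x))) = f x
    have h1 : p (f x) = ⟨f x, LinearMap.mem_range_self f x⟩ := by
      have := LinearMap.congr_fun hp ⟨f x, LinearMap.mem_range_self f x⟩
      exact this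
    have h2 := LinearMap.congr_fun hs ⟨f x, LinearMap.mem_range_self f x⟩
    rw [h1]
    exact congrArg Subtype.val h2
  let G0 : Matrix (Fin d) (Fin m) K := LinearMap.toMatrix' (s ∘ₗ p)
  have hG0 : MK * G0 * MK = MK := by
    have h1 := congrArg LinearMap.toMatrix' hfgf
    have h2 : LinearMap.toMatrix' f = MK := LinearMap.toMatrix'_toLin' MK
    rw [LinearMap.toMatrix'_comp, LinearMap.toMatrix'_comp, h2, ← Matrix.mul_assoc] at h1
    exact h1
  obtain ⟨b, hb⟩ := IsLocalization.exist_integer_multiples_of_finite (nonZeroDivisors ℂ[X])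
    (fun q : Fin d × Fin m => G0 q.1 q.2)
  choose g hg using fun q => hb q
  refine ⟨(b : ℂ[X]), Matrix.of fun i j => g (i, j), nonZeroDivisors.ne_zero b.2, ?_⟩
  have hinj : Function.Injective (algebraMap ℂ[X] K) := IsFractionRing.injective ℂ[X] K
  apply Matrix.map_injective hinj
  have h3 : (Matrix.of fun i j => g (i, j)).map (algebraMap ℂ[X] K) =
      (algebraMap ℂ[X] K b) • G0 := by
    ext i j
    rw [Matrix.map_apply, Matrix.of_apply, Matrix.smul_apply, hg (i, j), Algebra.smul_def,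
      smul_eq_mul]
  have h4 : (b.1 • M).map (algebraMap ℂ[X] K) = (algebraMap ℂ[X] K b) • MK := by
    ext i j
    simp [MK, Matrix.map_apply]
  change ((M * Matrix.of fun i j => g (i, j)) * M).map (algebraMap ℂ[X] K) =
    (b.1 • M).map (algebraMap ℂ[X] K)
  rw [Matrix.map_mul, Matrix.map_mul, h3, h4, Matrix.mul_smul, Matrix.smul_mul]
  change (algebraMap ℂ[X] K b) • (MK * G0 * MK) = _
  rw [hG0]

/-- The statement for matrices. -/
theorem spf_mat {m d : ℕ} (A₀ A₁ : Matrix (Fin m) (Fin d) ℂ) :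
    ∃ Bad : Finset ℂ, ∀ t ∉ Bad, ∀ x : Fin d → ℂ,
      A₀.mulVec x + t • A₁.mulVec x = 0 → ∃ (n : ℕ) (y : ℕ → Fin d → ℂ),
        (∀ i, n ≤ i → y i = 0) ∧ A₀.mulVec (y 0) = 0 ∧
        (∀ i, A₀.mulVec (y (i + 1)) + A₁.mulVec (y i) = 0) ∧
        ∑ i ∈ Finset.range n, t ^ i • y i = x := by
  classical
  let M : Matrix (Fin m) (Fin d) ℂ[X] :=
    A₀.map Polynomial.C + (Polynomial.X : ℂ[X]) • A₁.map Polynomial.C
  obtain ⟨δ, G, hδ, hG⟩ := spf_gen M
  refine ⟨δ.roots.toFinset, fun t ht x hx => ?_⟩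
  have hδt : δ.eval t ≠ 0 := by
    intro h
    apply ht
    rw [Multiset.mem_toFinset, Polynomial.mem_roots hδ]
    exact h
  let u : Fin d → ℂ[X] := fun j => Polynomial.C (x j)
  let w : Fin d → ℂ[X] := Polynomial.C (δ.eval t)⁻¹ • (δ • u - G.mulVec (M.mulVec u))
  have hMw : M.mulVec w = 0 := by
    simp only [w]
    rw [Matrix.mulVec_smul, Matrix.mulVec_sub, Matrix.mulVec_smul, Matrix.mulVec_mulVec,
      Matrix.mulVec_mulVec, hG, Matrix.smul_mulVec, sub_self, smul_zero]
  have hMt : ∀ k, ((M.mulVec u) k).eval t = 0 := by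
    intro k
    have h1 := congrFun hx k
    have h2 : ((M.mulVec u) k).eval t = A₀.mulVec x k + t * A₁.mulVec x k := by
      simp only [M, u, Matrix.mulVec, dotProduct, Polynomial.eval_finsetSum, Matrix.add_apply,
        Matrix.map_apply, Matrix.smul_apply, smul_eq_mul, Polynomial.eval_mul,
        Polynomial.eval_add, Polynomial.eval_C, Polynomial.eval_X]
      rw [Finset.mul_sum, ← Finset.sum_add_distrib]
      refine Finset.sum_congr rfl fun j _ => ?_
      ring
    rw [h2]
    exact h1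
  have hwt : ∀ j, (w j).eval t = x j := by
    intro j
    have h1 : ((G.mulVec (M.mulVec u)) j).eval t = 0 := by
      simp only [Matrix.mulVec, dotProduct, Polynomial.eval_finsetSum, Polynomial.eval_mul]
      refine Finset.sum_eq_zero fun k _ => ?_
      have := hMt k
      simp only [Matrix.mulVec, dotProduct, Polynomial.eval_finsetSum,
        Polynomial.eval_mul] at this
      rw [this, mul_zero]
    simp only [w, Pi.smul_apply, Pi.sub_apply, smul_eq_mul, Polynomial.eval_mul,
      Polynomial.eval_C, Polynomial.eval_sub]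
    rw [h1, sub_zero, ← mul_assoc, inv_mul_cancel₀ hδt, one_mul]
    simp [u]
  let n : ℕ := (Finset.univ.sup fun j => (w j).natDegree) + 1
  have hn : ∀ j, (w j).natDegree < n := by
    intro j
    have := Finset.le_sup (f := fun j => (w j).natDegree) (Finset.mem_univ j)
    exact Nat.lt_succ_of_le this
  refine ⟨n, fun i j => (w j).coeff i, fun i hi => ?_, ?_, fun i => ?_, ?_⟩
  · funext j
    exact Polynomial.coeff_eq_zero_of_natDegree_lt ((hn j).trans_le hi)
  · funext k
    have h1 := congrArg (fun P : ℂ[X] => P.coeff 0) (congrFun hMw k)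
    simp only [M, Matrix.mulVec, dotProduct, Polynomial.finsetSum_coeff, Matrix.add_apply,
      Matrix.map_apply, Matrix.smul_apply, smul_eq_mul, Pi.zero_apply, Polynomial.coeff_zero,
      add_mul, Polynomial.coeff_add, Polynomial.coeff_C_mul, mul_assoc,
      Polynomial.coeff_X_mul_zero, add_zero] at h1
    exact h1
  · funext k
    have h1 := congrArg (fun P : ℂ[X] => P.coeff (i + 1)) (congrFun hMw k)
    simp only [M, Matrix.mulVec, dotProduct, Polynomial.finsetSum_coeff, Matrix.add_apply,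
      Matrix.map_apply, Matrix.smul_apply, smul_eq_mul, Pi.zero_apply, Polynomial.coeff_zero,
      add_mul, Polynomial.coeff_add, Polynomial.coeff_C_mul, mul_assoc,
      Polynomial.coeff_X_mul, Finset.sum_add_distrib] at h1
    exact h1
  · funext j
    rw [Finset.sum_apply, ← hwt j, Polynomial.eval_eq_sum_range' (hn j)]
    refine Finset.sum_congr rfl fun i _ => ?_
    rw [Pi.smul_apply, smul_eq_mul, mul_comm]

theorem t_spf : SPFStmt := by
  intro E Y _ _ _ _ _ M₀ M₁
  let Y' : Submodule ℂ Y := LinearMap.range M₀ ⊔ LinearMap.range M₁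
  haveI : FiniteDimensional ℂ Y' := inferInstance
  let N₀ : E →ₗ[ℂ] Y' := M₀.codRestrict Y' fun x =>
    (le_sup_left : LinearMap.range M₀ ≤ Y') (LinearMap.mem_range_self M₀ x)
  let N₁ : E →ₗ[ℂ] Y' := M₁.codRestrict Y' fun x =>
    (le_sup_right : LinearMap.range M₁ ≤ Y') (LinearMap.mem_range_self M₁ x)
  let e := (Module.finBasis ℂ E).equivFun
  let e' := (Module.finBasis ℂ Y').equivFun
  let L₀ := e'.toLinearMap ∘ₗ N₀ ∘ₗ e.symm.toLinearMap
  let L₁ := e'.toLinearMap ∘ₗ N₁ ∘ₗ e.symm.toLinearMap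
  have hL : ∀ (r s : ℂ) (u v : E), r • M₀ u + s • M₁ v = 0 ↔
      r • L₀ (e u) + s • L₁ (e v) = 0 := by
    intro r s u v
    have h1 : r • L₀ (e u) + s • L₁ (e v) = e' (r • N₀ u + s • N₁ v) := by
      simp only [L₀, L₁, LinearMap.comp_apply, LinearEquiv.coe_coe, LinearEquiv.symm_apply_apply,
        map_add, map_smul]
    rw [h1, LinearEquiv.map_eq_zero_iff, ← Submodule.coe_eq_zero]
    rfl
  obtain ⟨Bad, hBad⟩ := spf_mat (LinearMap.toMatrix' L₀) (LinearMap.toMatrix' L₁)
  refine ⟨Bad, fun t ht z hz => ?_⟩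
  have h2 : (LinearMap.toMatrix' L₀).mulVec (e z) + t • (LinearMap.toMatrix' L₁).mulVec (e z) =
      0 := by
    rw [LinearMap.toMatrix'_mulVec, LinearMap.toMatrix'_mulVec]
    have := (hL 1 t z z).1 (by rw [one_smul]; exact hz)
    rwa [one_smul] at this
  obtain ⟨n, y, hy0, hy1, hy2, hy3⟩ := hBad t ht (e z) h2
  refine ⟨n, fun i => e.symm (y i), fun i hi => by
    change e.symm (y i) = 0
    rw [hy0 i hi, map_zero], ?_, fun i => ?_, ?_⟩
  · have := (hL 1 0 (e.symm (y 0)) 0).2 (by
      rw [one_smul, zero_smul, add_zero, LinearEquiv.apply_symm_apply]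
      rwa [LinearMap.toMatrix'_mulVec] at hy1)
    rwa [one_smul, zero_smul, add_zero] at this
  · have := (hL 1 1 (e.symm (y (i + 1))) (e.symm (y i))).2 (by
      rw [one_smul, one_smul, LinearEquiv.apply_symm_apply, LinearEquiv.apply_symm_apply]
      have h3 := hy2 i
      rwa [LinearMap.toMatrix'_mulVec, LinearMap.toMatrix'_mulVec] at h3)
    rwa [one_smul, one_smul] at this
  · have h4 := congrArg e.symm hy3
    rw [LinearEquiv.symm_apply_apply, map_sum] at h4
    rw [← h4]
    refine Finset.sum_congr rfl fun i _ => ?_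
    rw [map_smul]

end Pool.MFL
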